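import Pool.Agent.W809.JS.Stm

set_option autoImplicit false

open MeasureTheory Filter Topology Set Metric Real
open Pool.Agent.Results.MP_5c297c_an.NotJessen
open Pool.Agent.W809.JS

namespace Pool.Agent.W924.JS

lemma rePart_sub' {n : ℕ} (z w : Fin n → ℂ) : rePart (z - w) = rePart z - rePart w := by
  funext j; simp [rePart]

theorem zn : S_ITER → S_ZN := by
  intro hI n f p R M hR hM hf hz y hy
  obtain ⟨C, hC, hI⟩ := hI
  obtain ⟨hfm, hfd, hfb⟩ := hf
  obtain ⟨z0, hz0, hfz0⟩ := hz
  have hU : IsOpen (tube (ball p R)) := isOpen_tube isOpen_ball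
  have hUc : Convex ℝ (tube (ball p R)) := convex_tube (convex_ball _ _)
  rw [ae_iff]
  simp only [not_not]
  apply measure_null_of_locally_null
  intro x0 hx0
  set r0 : ℝ := R - dist y p with hr0
  have hr0p : 0 < r0 := by
    rw [hr0]
    have := mem_ball.1 hy
    linarith
  set s : ℝ := min 1 (r0 / 20) with hs
  have hs0 : 0 < s := lt_min one_pos (by positivity)
  have hs1 : s ≤ 1 := min_le_left _ _
  have hs2 : s ≤ r0 / 20 := min_le_right _ _
  have hmem : cpt x0 y ∈ tube (ball p R) := by
    change imPart (cpt x0 y) ∈ ball p R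
    rw [imPart_cpt]; exact hy
  obtain ⟨z, hz1, hz2⟩ := exists_ne_zero_near hU hUc hfd hz0 hfz0 hmem (half_pos hs0)
  rw [mem_ball] at hz1
  have hzn : ‖z - cpt x0 y‖ < s / 2 := by rw [← dist_eq_norm]; exact hz1
  have hsub : closedBall z (8 * s) ⊆ tube (ball p R) := by
    intro w hw
    change imPart w ∈ ball p R
    rw [mem_closedBall, dist_eq_norm] at hw
    have h1 : ‖w - cpt x0 y‖ ≤ 8 * s + s / 2 := by
      have : w - cpt x0 y = (w - z) + (z - cpt x0 y) := by ring
      rw [this]
      exact (norm_add_le _ _).trans (add_le_add hw hzn.le)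
    have h2 : dist (imPart w) y ≤ 8 * s + s / 2 := by
      rw [dist_eq_norm]
      have : imPart w - y = imPart (w - cpt x0 y) := by rw [imPart_sub, imPart_cpt]
      rw [this]
      exact (norm_imPart_le _).trans h1
    rw [mem_ball]
    have h3 := dist_triangle (imPart w) y p
    have h4 : r0 = R - dist y p := hr0
    linarith
  have hyk : ∀ k, |y k - (z k).im| ≤ s := by
    intro k
    have h1 : |y k - (z k).im| = |(z - cpt x0 y) k |>.im| := by
      rw [abs_sub_comm]
      congr 1
      simp [cpt]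
    rw [h1]
    refine (Complex.abs_im_le_norm _).trans ((norm_le_pi_norm (z - cpt x0 y) k).trans ?_)
    linarith
  have h1 := (hI n s M z y f _ hs0 hs1 hM hfm hU hfd hsub hfb hyk).1
  have h2 : ENNReal.ofReal (C ^ n) * (dfc M (f z)) ^ 2 < ⊤ := by
    apply ENNReal.mul_lt_top ENNReal.ofReal_lt_top
    apply ENNReal.pow_lt_top
    unfold dfc
    rw [if_neg hz2]
    exact ENNReal.ofReal_lt_top
  have hmeas : Measurable fun x : Fin n → ℝ => (dfc M (f (cpt x y))) ^ 2 :=
    ((measurable_dfc M).comp (hfm.comp (measurable_cpt_left y))).pow_const 2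
  have h3 := ae_lt_top hmeas (lt_of_le_of_lt h1 h2).ne
  rw [ae_restrict_iff' measurableSet_closedBall, ae_iff] at h3
  refine ⟨{x | f (cpt x y) = 0} ∩ ball x0 (s / 2), ?_, ?_⟩
  · exact inter_mem self_mem_nhdsWithin (mem_nhdsWithin_of_mem_nhds (ball_mem_nhds _ (half_pos hs0)))
  · refine measure_mono_null ?_ h3
    rintro x ⟨hx1, hx2⟩
    simp only [Set.mem_setOf_eq, not_forall]
    refine ⟨?_, ?_⟩
    · rw [mem_closedBall]
      rw [mem_ball] at hx2
      have h4 : dist x0 (rePart z) ≤ s / 2 := by
        rw [dist_comm, dist_eq_norm]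
        have : rePart z - x0 = rePart (z - cpt x0 y) := by rw [rePart_sub', rePart_cpt]
        rw [this]
        exact (norm_rePart_le _).trans hzn.le
      have := dist_triangle x x0 (rePart z)
      linarith
    · rw [Set.mem_setOf_eq] at hx1
      rw [hx1]
      simp [dfc]

end Pool.Agent.W924.JS
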